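import Pool.Agent.H5.Eta

set_option autoImplicit false

namespace Pool.Agent.Results.MP_dbf4ef_co.ZeroIff

open Pool.Agent.H5.EtaDefs

theorem result (V : Type) [Fintype V] (G : SimpleGraph V) (d : ℕ)
    (h : IsVariety G (d + 1) Finset.univ) : etaSum G Finset.univ = 0 ↔
      ∀ x ∈ faces G Finset.univ, chi (bary V) (sph (bary V) (faces G Finset.univ) x) = 0 :=
  H5.Eta.zero_iff h

end Pool.Agent.Results.MP_dbf4ef_co.ZeroIff
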